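import Pool.Agent.N966.PQ.RamF

/-!
Project PQ (helper922), part RAM (helper966), after Pool/Agent/N765/PP/Ram.lean (helper765).
-/

set_option autoImplicit false
set_option linter.all false

open Polynomial IsDedekindDomain Matrix
open scoped Classical

namespace Pool.Agent.N966.PQ

open Pool.Agent.N874.PP (Ev Sq1 U0)
open Pool.Agent.N922.PQ

section

variable {L O : Type} [Field L] [CommRing O] [IsDedekindDomain O] [Algebra O L] [IsFractionRing O L]

theorem sq1_scale (𝔓 : HeightOneSpectrum O) {c x : L} (hc : c ≠ 0) :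
    Sq1 𝔓 (c ^ 2 * x) ↔ Sq1 𝔓 x := by
  have hc0 : 0 < 𝔓.valuation L (c ^ 2) := (Valuation.pos_iff _).2 (pow_ne_zero _ hc)
  constructor
  · rintro ⟨s, hs⟩
    refine ⟨s / c, ?_⟩
    have e : c ^ 2 * x - s ^ 2 = c ^ 2 * (x - (s / c) ^ 2) := by field_simp
    rw [e, map_mul, map_mul] at hs
    exact lt_of_mul_lt_mul_left hs hc0.le
  · rintro ⟨s, hs⟩
    refine ⟨c * s, ?_⟩
    have e : c ^ 2 * x - (c * s) ^ 2 = c ^ 2 * (x - s ^ 2) := by ring
    rw [e, map_mul, map_mul]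
    exact mul_lt_mul_of_pos_left hs hc0

end

/-- Odd valuation at the prime of degree two over `Q`. -/
theorem ram (h0 : S_INT) (h1 : S_EXQ) : S_RAM := by
  intro L O _ _ _ _ _ _ _ a b θ h hsq p _ h2 hQb hns 𝔓₁ 𝔮 hO1 hOq hθ1 hθq α hα hev hodd
  obtain ⟨Q, hQp⟩ : ∃ Q : ℤ, Q = (p : ℤ) := ⟨_, rfl⟩
  have hQ : Prime Q := by
    rw [hQp]
    exact Nat.prime_iff_prime_int.1 (Fact.out : p.Prime)
  rw [← hQp] at hQb hns hO1 hOq
  have hINT := h0 L a b θ h hsq
  obtain ⟨𝔓₁', 𝔮', hO1', hOq', hθ1', hθq', -, hall⟩ := h1 L O a b θ h hsq Q hQ hQb hns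
  have e1 : 𝔓₁ = 𝔓₁' := by
    rcases hall 𝔓₁ hO1 with h3 | h3
    · exact h3
    · rw [h3, hθq'] at hθ1; exact absurd hθ1 (lt_irrefl _)
  have eq' : 𝔮 = 𝔮' := by
    rcases hall 𝔮 hOq with h3 | h3
    · rw [h3] at hθq; exact absurd hθq hθ1'.ne
    · exact h3
  subst e1 eq'
  clear hO1' hOq' hθ1' hθq'
  have hQa : ¬ Q ∣ a := by
    intro h3; apply hns 0; rw [zero_pow two_ne_zero, zero_add]; exact h3
  set ι : ℤ →+* L := Int.castRingHom L with hι
  have hinj : Function.Injective ι := Int.cast_injective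
  -- valuations of sums
  have hv1 : ∀ (𝔓 : HeightOneSpectrum O) (f : ℤ), 𝔓.valuation L (ι f) ≤ 1 := fun 𝔓 f =>
    val_le 𝔓 f
  have hlt : ∀ (𝔓 : HeightOneSpectrum O), Ov Q 𝔓 → ∀ f : ℤ,
      𝔓.valuation L (ι f) < 1 ↔ Q ∣ f := fun 𝔓 h𝔓 f => val_lt hQ h𝔓 f
  have hval : ∀ (𝔓 : HeightOneSpectrum O), Ov Q 𝔓 → ∀ f : ℤ, ¬ Q ∣ f →
      𝔓.valuation L (ι f) = 1 := fun 𝔓 h𝔓 f hf => val_eq hQ h𝔓 hf
  have hroot : θ * (θ ^ 2 + ι a) = -ι b := by
    have := h.root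
    linear_combination this
  have hleQ : ∀ (𝔓 : HeightOneSpectrum O) (f : ℤ), Q ∣ f →
      𝔓.valuation L (ι f) ≤ 𝔓.valuation L (ι Q) := by
    rintro 𝔓 f ⟨g, rfl⟩
    rw [hι, map_mul, map_mul]
    exact mul_le_of_le_one_right' (hv1 𝔓 g)
  -- at the first prime
  have F2 : ∀ p0 p1 p2 : ℤ, 𝔓₁.valuation L (ι p0 + ι p1 * θ + ι p2 * θ ^ 2) < 1 → Q ∣ p0 := by
    intro p0 p1 p2 hp
    rw [← hlt 𝔓₁ hO1]
    have e : ι p0 = (ι p0 + ι p1 * θ + ι p2 * θ ^ 2) - (ι p1 + ι p2 * θ) * θ := by ring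
    rw [e]
    refine (Valuation.map_sub _ _ _).trans_lt (max_lt hp ?_)
    rw [map_mul]
    refine mul_lt_one_of_nonneg_of_lt_one_right ?_ zero_le hθ1
    refine (Valuation.map_add _ _ _).trans (max_le (hv1 _ _) ?_)
    rw [map_mul]
    exact mul_le_one' (hv1 _ _) hθ1.le
  -- at the second prime
  have F3 : 𝔮.valuation L (θ ^ 2 + ι a) ≤ 𝔮.valuation L (ι Q) := by
    have := congrArg (𝔮.valuation L) hroot
    rw [map_mul, hθq, one_mul, Valuation.map_neg] at this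
    rw [this]
    exact hleQ 𝔮 b hQb
  have hQ1 : 𝔮.valuation L (ι Q) < 1 := (hlt 𝔮 hOq Q).2 dvd_rfl
  have F4 : ∀ p0 p1 : ℤ, 𝔮.valuation L (ι p0 + ι p1 * θ) < 1 → Q ∣ p0 ∧ Q ∣ p1 := by
    intro p0 p1 hp
    have h3 : Q ∣ p0 ^ 2 + a * p1 ^ 2 := by
      rw [← hlt 𝔮 hOq]
      have e : ι (p0 ^ 2 + a * p1 ^ 2) = (ι p0 + ι p1 * θ) * (ι p0 - ι p1 * θ) +
          ι (p1 ^ 2) * (θ ^ 2 + ι a) := by
        rw [hι, map_add, map_mul, map_pow, map_pow]; ring
      rw [e]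
      refine (Valuation.map_add _ _ _).trans_lt (max_lt ?_ ?_)
      · rw [map_mul]
        refine mul_lt_one_of_lt_of_le hp ?_
        refine (Valuation.map_sub _ _ _).trans (max_le (hv1 _ _) ?_)
        rw [map_mul]
        exact mul_le_one' (hv1 _ _) hθq.le
      · rw [map_mul]
        exact (mul_le_of_le_one_left' (hv1 _ _)).trans_lt (F3.trans_lt hQ1)
    by_cases h4 : Q ∣ p1
    · refine ⟨?_, h4⟩
      have h5 : Q ∣ p0 ^ 2 := by
        have : p0 ^ 2 = (p0 ^ 2 + a * p1 ^ 2) - a * p1 * p1 := by ring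
        rw [this]
        exact dvd_sub h3 (Dvd.dvd.mul_left h4 _)
      exact hQ.dvd_of_dvd_pow h5
    · exfalso
      obtain ⟨u, w, huw⟩ := (hQ.irreducible.coprime_iff_not_dvd.2 h4)
      apply hns (p0 * w)
      have e : (p0 * w) ^ 2 + a = w ^ 2 * (p0 ^ 2 + a * p1 ^ 2) +
          a * (u * Q) * (1 + w * p1) := by
        have : u * Q = 1 - w * p1 := by linear_combination huw
        rw [this]; ring
      rw [e]
      exact dvd_add (Dvd.dvd.mul_left h3 _)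
        (Dvd.dvd.mul_right (Dvd.dvd.mul_left (Dvd.intro_left u rfl) _) _)
  -- unramified
  have F5 : ∀ x : O, 𝔮.valuation L (algebraMap O L x) < 1 →
      𝔮.valuation L (algebraMap O L x) ≤ 𝔮.valuation L (ι Q) := by
    intro x hx
    obtain ⟨p, hp⟩ := (hINT (algebraMap O L x)).1 (IsIntegralClosure.isIntegral_iff.2 ⟨x, rfl⟩)
    have hp' : algebraMap O L x = ι (p 0) + ι (p 1) * θ + ι (p 2) * θ ^ 2 := hp
    have e : algebraMap O L x = (ι (p 0 - a * p 2) + ι (p 1) * θ) +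
        ι (p 2) * (θ ^ 2 + ι a) := by
      rw [hp', hι, map_sub, map_mul]; ring
    have h3 : 𝔮.valuation L (ι (p 2) * (θ ^ 2 + ι a)) ≤ 𝔮.valuation L (ι Q) := by
      rw [map_mul]
      exact (mul_le_of_le_one_left' (hv1 _ _)).trans F3
    have h4 : 𝔮.valuation L (ι (p 0 - a * p 2) + ι (p 1) * θ) < 1 := by
      have e2 : ι (p 0 - a * p 2) + ι (p 1) * θ = algebraMap O L x -
          ι (p 2) * (θ ^ 2 + ι a) := by rw [e]; ring
      rw [e2]
      exact (Valuation.map_sub _ _ _).trans_lt (max_lt hx (h3.trans_lt hQ1))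
    obtain ⟨h5, h7⟩ := F4 _ _ h4
    rw [e]
    refine (Valuation.map_add _ _ _).trans (max_le ?_ h3)
    refine (Valuation.map_add _ _ _).trans (max_le (hleQ _ _ h5) ?_)
    rw [map_mul, hθq, mul_one]
    exact hleQ _ _ h7
  have hQexp : 𝔮.valuation L (ι Q) = WithZero.exp (-1 : ℤ) := by
    have hQ0 : 𝔮.valuation L (ι Q) ≠ 0 := by
      rw [Valuation.ne_zero_iff]
      intro h3
      exact hQ.ne_zero (hinj (by rw [map_zero]; exact h3))
    obtain ⟨π, hπ⟩ := 𝔮.intValuation_exists_uniformizer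
    have h3 : 𝔮.valuation L (algebraMap O L π) = WithZero.exp (-1 : ℤ) := by
      rw [𝔮.valuation_of_algebraMap]; exact hπ
    have h4 := F5 π (by
      rw [h3, ← WithZero.exp_zero, WithZero.exp_lt_exp]; norm_num)
    rw [h3] at h4
    refine le_antisymm ?_ h4
    obtain ⟨n, hn⟩ : ∃ n : ℤ, 𝔮.valuation L (ι Q) = WithZero.exp n :=
      ⟨WithZero.log (𝔮.valuation L (ι Q)), (WithZero.exp_log hQ0).symm⟩
    rw [hn] at hQ1 ⊢
    rw [← WithZero.exp_zero, WithZero.exp_lt_exp] at hQ1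
    rw [WithZero.exp_le_exp]
    omega
  -- the odd valuation
  obtain ⟨yq, hyq0, hyq⟩ : ∃ y : L, y ≠ 0 ∧
      𝔮.valuation L α = 𝔮.valuation L (ι Q) * 𝔮.valuation L y ^ 2 := by
    have hα0 : 𝔮.valuation L α ≠ 0 := (Valuation.ne_zero_iff _).2 hα
    obtain ⟨n, hn⟩ : ∃ n : ℤ, 𝔮.valuation L α = WithZero.exp n :=
      ⟨WithZero.log (𝔮.valuation L α), (WithZero.exp_log hα0).symm⟩
    rcases Int.even_or_odd n with ⟨m, hm⟩ | ⟨m, hm⟩
    · exfalso
      apply hodd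
      obtain ⟨y, hy⟩ := 𝔮.valuation_surjective L (WithZero.exp m)
      refine ⟨y, ?_⟩
      rw [hn, hy, hm, ← WithZero.exp_nsmul]
      congr 1
      ring
    · obtain ⟨y, hy⟩ := 𝔮.valuation_surjective L (WithZero.exp (m + 1))
      refine ⟨y, ?_, ?_⟩
      · rintro rfl
        rw [map_zero] at hy
        exact WithZero.exp_ne_zero hy.symm
      · rw [hn, hQexp, hy, hm, ← WithZero.exp_nsmul, ← WithZero.exp_add]
        congr 1
        ring
  obtain ⟨y1, hy1⟩ := hev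
  have hy10 : y1 ≠ 0 := by
    rintro rfl
    rw [map_zero, zero_pow two_ne_zero, map_eq_zero] at hy1
    exact hα hy1
  have hne : 𝔓₁ ≠ 𝔮 := by
    rintro rfl; exact hθ1.ne hθq
  obtain ⟨g0, hg0, hgv⟩ := weak (L := L) {𝔓₁, 𝔮} (fun 𝔓 => if 𝔓 = 𝔓₁ then y1 else yq) (by
    intro 𝔓 _
    split_ifs
    · exact hy10
    · exact hyq0)
  have hg1 : 𝔓₁.valuation L g0 = 𝔓₁.valuation L y1 := by
    have := hgv 𝔓₁ (by simp)
    simpa using this
  have hgq : 𝔮.valuation L g0 = 𝔮.valuation L yq := by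
    have := hgv 𝔮 (by simp)
    simpa [hne.symm] using this
  have hvne : ∀ (𝔓 : HeightOneSpectrum O) {x : L}, x ≠ 0 → 𝔓.valuation L x ≠ 0 := fun 𝔓 x hx =>
    (Valuation.ne_zero_iff _).2 hx
  have hιQ : ι Q ≠ 0 := by
    intro h3
    exact hQ.ne_zero (hinj (by rw [map_zero]; exact h3))
  have hk1 : 𝔓₁.valuation L (ι Q * g0 ^ 2 / α) = 𝔓₁.valuation L (ι Q) := by
    rw [map_div₀, map_mul, map_pow, hg1, hy1, mul_div_assoc, div_self, mul_one]
    exact pow_ne_zero _ (hvne _ hy10)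
  have hkq : 𝔮.valuation L (ι Q * g0 ^ 2 / α) = 1 := by
    rw [map_div₀, map_mul, map_pow, hgq, hyq, div_self]
    exact mul_ne_zero (hvne _ hιQ) (pow_ne_zero _ (hvne _ hyq0))
  obtain ⟨s, hs, hsi⟩ := loc_int hQ (ι Q * g0 ^ 2 / α) fun 𝔓 h𝔓 => by
    rcases hall 𝔓 h𝔓 with h3 | h3
    · rw [h3, hk1]; exact hv1 _ _
    · rw [h3, hkq]
  have hs0 : ι s ≠ 0 := by
    intro h3
    apply hs
    have : s = 0 := hinj (by rw [map_zero]; exact h3)
    rw [this]; exact dvd_zero Q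
  set g : L := ι s * g0 with hg
  have hgne : g ≠ 0 := mul_ne_zero hs0 hg0
  set κ : L := ι Q * g ^ 2 / α with hκ
  have hκe : κ = ι s ^ 2 * (ι Q * g0 ^ 2 / α) := by rw [hκ, hg]; ring
  have hκ0 : κ ≠ 0 := div_ne_zero (mul_ne_zero hιQ (pow_ne_zero _ hgne)) hα
  have hκi : IsIntegral ℤ κ := by
    have e : κ = ι s * (ι s * (ι Q * g0 ^ 2 / α)) := by rw [hκe]; ring
    rw [e]
    exact (isIntegral_algebraMap (R := ℤ) (x := s)).mul hsi
  have hκ1 : 𝔓₁.valuation L κ = 𝔓₁.valuation L (ι Q) := by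
    rw [hκe, map_mul, map_pow, hval 𝔓₁ hO1 s hs, one_pow, one_mul, hk1]
  have hκq : 𝔮.valuation L κ = 1 := by
    rw [hκe, map_mul, map_pow, hval 𝔮 hOq s hs, one_pow, one_mul, hkq]
  obtain ⟨d, hd⟩ := (hINT κ).1 hκi
  have hd' : κ = ι (d 0) + ι (d 1) * θ + ι (d 2) * θ ^ 2 := hd
  have hQ1' : 𝔓₁.valuation L (ι Q) < 1 := (hlt 𝔓₁ hO1 Q).2 dvd_rfl
  have F8 : Q ∣ d 0 := by
    apply F2 (d 0) (d 1) (d 2)
    rw [← hd', hκ1]; exact hQ1'
  have F9 : ¬ (Q ∣ d 1 ∧ Q ∣ d 2) := by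
    rintro ⟨h3, h4⟩
    have : 𝔮.valuation L κ < 1 := by
      rw [hd']
      refine (Valuation.map_add _ _ _).trans_lt (max_lt ?_ ?_)
      · refine (Valuation.map_add _ _ _).trans_lt (max_lt ((hlt 𝔮 hOq _).2 F8) ?_)
        rw [map_mul, hθq, mul_one]
        exact (hlt 𝔮 hOq _).2 h3
      · rw [map_mul, map_pow, hθq, one_pow, mul_one]
        exact (hlt 𝔮 hOq _).2 h4
    exact this.ne hκq
  have hf1 : 𝔓₁.valuation L (θ ^ 2 + ι a) = 1 := by
    have h3 : 𝔓₁.valuation L (ι a) = 1 := hval 𝔓₁ hO1 a hQa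
    have h4 : 𝔓₁.valuation L (θ ^ 2) < 1 := by
      rw [map_pow]
      exact pow_lt_one₀ zero_le hθ1 two_ne_zero
    rw [Valuation.map_add_eq_of_lt_right, h3]
    rw [h3]; exact h4
  have F10 : ¬ Q ^ 2 ∣ a * d 0 - b * d 1 := by
    rintro ⟨w, hw⟩
    obtain ⟨b', hb'⟩ := hQb
    obtain ⟨d', hd0'⟩ := F8
    have e : κ * (θ ^ 2 + ι a) ^ 2 = ι Q ^ 2 * (ι w * (θ ^ 2 + ι a) - ι b' * ι d' * θ +
        ι b' ^ 2 * ι (d 2)) := by
      have e1 : ι a * ι (d 0) - ι b * ι (d 1) = ι Q ^ 2 * ι w := by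
        have := congrArg ι hw
        rw [hι] at this ⊢
        simp only [map_sub, map_mul, map_pow] at this
        exact this
      have e2 : ι b = ι Q * ι b' := by rw [hb', hι, map_mul]
      have e3 : ι (d 0) = ι Q * ι d' := by rw [hd0', hι, map_mul]
      rw [hd']
      linear_combination (ι (d 0) * θ + ι (d 1) * (θ ^ 2 + ι a) + ι (d 2) * θ * (θ ^ 2 + ι a) -
        ι b * ι (d 2)) * hroot + (θ ^ 2 + ι a) * e1 +
        (-θ * ι (d 0) + ι (d 2) * (ι b + ι Q * ι b')) * e2 - (ι Q * ι b' * θ) * e3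
    have h3 := congrArg (𝔓₁.valuation L) e
    rw [map_mul, map_pow, hf1, one_pow, mul_one, hκ1, map_mul, map_pow] at h3
    have h4 : 𝔓₁.valuation L (ι w * (θ ^ 2 + ι a) - ι b' * ι d' * θ + ι b' ^ 2 * ι (d 2)) ≤ 1 := by
      refine (Valuation.map_add _ _ _).trans (max_le ?_ ?_)
      · refine (Valuation.map_sub _ _ _).trans (max_le ?_ ?_)
        · rw [map_mul, hf1, mul_one]; exact hv1 _ _
        · rw [map_mul, map_mul]
          exact mul_le_one' (mul_le_one' (hv1 _ _) (hv1 _ _)) hθ1.le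
      · rw [map_mul, map_pow]
        exact mul_le_one' (pow_le_one' (hv1 _ _) _) (hv1 _ _)
    have h5 : 𝔓₁.valuation L (ι Q) ≤ 𝔓₁.valuation L (ι Q) ^ 2 := by
      conv_lhs => rw [h3]
      exact mul_le_of_le_one_right' h4
    have h7 : 𝔓₁.valuation L (ι Q) ^ 2 < 𝔓₁.valuation L (ι Q) := by
      rw [pow_two]
      exact mul_lt_of_lt_one_left (zero_lt_iff.2 (hvne _ hιQ)) hQ1'
    exact absurd h5 (not_le.2 h7)
  -- the form
  set f : Fin 3 → L := fun i => g * (![θ ^ 2 + ι a, θ, θ ^ 2] : Fin 3 → L) i with hf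
  have hfli : LinearIndependent ℚ f := by
    apply li_mul _ hgne
    have hli := li_pow h
    rw [Fintype.linearIndependent_iff] at hli ⊢
    intro c hc
    rw [Fin.sum_univ_three] at hc
    simp only [Matrix.cons_val_zero, Matrix.cons_val_one, Matrix.cons_val] at hc
    have ha0 : (a : ℚ) ≠ 0 := by
      intro h3
      have : a = 0 := by exact_mod_cast h3
      exact hQa (this ▸ dvd_zero Q)
    have e3 : ι a = ((a : ℚ) : L) := by
      rw [hι, Rat.cast_intCast]; rfl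
    have h3 := hli ![c 0 * (a : ℚ), c 1, c 0 + c 2] (by
      rw [Fin.sum_univ_three]
      simp only [Matrix.cons_val_zero, Matrix.cons_val_one, Matrix.cons_val]
      rw [← hc]
      simp only [Rat.smul_def, Rat.cast_mul, Rat.cast_add, e3, Fin.val_zero, Fin.val_one, Fin.val_two,
        pow_zero, pow_one, Fin.coe_ofNat_eq_mod]
      ring)
    have c0 : c 0 = 0 := by
      have := h3 0
      simp only [Matrix.cons_val_zero] at this
      exact (mul_eq_zero.1 this).resolve_right ha0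
    have c1 : c 1 = 0 := by
      have := h3 1
      simpa using this
    have c2 : c 2 = 0 := by
      have := h3 2
      simp only [Matrix.cons_val, c0, zero_add] at this
      exact this
    intro i
    fin_cases i
    · exact c0
    · exact c1
    · exact c2
  have hgm : ∀ i j, h.co 2 (f i * f j / α) * (Q : ℚ) = ((gm a b d i j : ℤ) : ℚ) := by
    have tt : ∀ i, ∃ t : Fin 3 → ℤ, t = (![![a, 0, 1], ![0, 1, 0], ![0, 0, 1]] :
        Fin 3 → Fin 3 → ℤ) i ∧ Crd θ t ((![θ ^ 2 + ι a, θ, θ ^ 2] : Fin 3 → L) i) := by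
      intro i
      refine ⟨_, rfl, ?_⟩
      change (![θ ^ 2 + ι a, θ, θ ^ 2] : Fin 3 → L) i = _
      fin_cases i
      · simp [hι]; ring
      · simp [hι]
      · simp [hι]
    intro i j
    have e4 : f i * f j / α * ι Q = κ * ((![θ ^ 2 + ι a, θ, θ ^ 2] : Fin 3 → L) i *
        (![θ ^ 2 + ι a, θ, θ ^ 2] : Fin 3 → L) j) := by
      rw [hκ, hf]; ring
    have e5 : h.co 2 (f i * f j / α) * (Q : ℚ) = h.co 2 (f i * f j / α * ι Q) := by
      have : f i * f j / α * ι Q = (Q : ℚ) • (f i * f j / α) := by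
        rw [Rat.smul_def, hι, Rat.cast_intCast, eq_intCast]; ring
      rw [this, map_smul, smul_eq_mul, mul_comm]
    obtain ⟨t, ht, htc⟩ := tt i
    obtain ⟨t', ht', htc'⟩ := tt j
    rw [e5, e4, co_crd h (crd_mul h hd (crd_mul h htc htc')) 2, ht, ht']
    congr 1
    fin_cases i <;> fin_cases j <;> simp [mulc, gm] <;> ring
  have hQK : (Q : ℚ) ≠ 0 := by exact_mod_cast hQ.ne_zero
  have hA : IsoAt h p α ↔ Iso3 p (gm a b d) := by
    rw [← isoF_iff h p α f (gm a b d) _ hQK hgm]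
    exact ⟨fun H => iso_change h p α (li_pow h) hfli H, fun H => iso_change h p α hfli (li_pow h) H⟩
  rw [hA, iso_gm hQp h2 hQb hns F8 F9 F10]
  have hB : α * (ι Q * θ) = (ι Q * g / κ) ^ 2 * (κ * θ) := by
    rw [hκ]; field_simp
  have hpQ : ((p : ℕ) : L) = ι Q := by rw [hι, hQp, eq_intCast, Int.cast_natCast]
  rw [hpQ]
  rw [hB, sq1_scale 𝔮 (div_ne_zero (mul_ne_zero hιQ hgne) hκ0)]
  -- reduction modulo 𝔮
  have hκθ : 𝔮.valuation L (κ * θ) = 1 := by rw [map_mul, hκq, hθq, one_mul]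
  have hred : ∀ r0 r1 : ℤ, 𝔮.valuation L (κ * θ - (ι r0 + ι r1 * θ) ^ 2) < 1 ↔
      (Q ∣ r0 ^ 2 - a * r1 ^ 2 + a * d 1 ∧ Q ∣ 2 * r0 * r1 + a * d 2) := by
    intro r0 r1
    obtain ⟨d', hd0'⟩ := F8
    have hθ3 : θ ^ 3 = -ι a * θ - ι b := by linear_combination hroot
    have e : κ * θ - (ι r0 + ι r1 * θ) ^ 2 =
        -(ι (r0 ^ 2 - a * r1 ^ 2 + a * d 1) + ι (2 * r0 * r1 + a * d 2) * θ) +
        ((ι (d 1) - ι r1 ^ 2) * (θ ^ 2 + ι a) + ι Q * ι d' * θ - ι b * ι (d 2)) := by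
      have e3 : ι (d 0) = ι Q * ι d' := by rw [hd0', hι, map_mul]
      rw [hd', e3, hι]
      simp only [map_add, map_sub, map_mul, map_pow, map_ofNat]
      rw [← hι]
      linear_combination (ι (d 2)) * hroot
    have hsmall : 𝔮.valuation L ((ι (d 1) - ι r1 ^ 2) * (θ ^ 2 + ι a) + ι Q * ι d' * θ -
        ι b * ι (d 2)) < 1 := by
      refine (Valuation.map_sub _ _ _).trans_lt (max_lt ?_ ?_)
      · refine (Valuation.map_add _ _ _).trans_lt (max_lt ?_ ?_)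
        · rw [map_mul]
          refine mul_lt_one_of_nonneg_of_lt_one_right ?_ zero_le (F3.trans_lt hQ1)
          refine (Valuation.map_sub _ _ _).trans (max_le (hv1 _ _) ?_)
          rw [map_pow]
          exact pow_le_one' (hv1 _ _) _
        · rw [map_mul, map_mul, hθq, mul_one]
          exact mul_lt_one_of_lt_of_le hQ1 (hv1 _ _)
      · rw [map_mul]
        exact mul_lt_one_of_lt_of_le ((hlt 𝔮 hOq b).2 hQb) (hv1 _ _)
    constructor
    · intro h3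
      apply F4
      have e5 : ι (r0 ^ 2 - a * r1 ^ 2 + a * d 1) + ι (2 * r0 * r1 + a * d 2) * θ =
          ((ι (d 1) - ι r1 ^ 2) * (θ ^ 2 + ι a) + ι Q * ι d' * θ - ι b * ι (d 2)) -
          (κ * θ - (ι r0 + ι r1 * θ) ^ 2) := by rw [e]; ring
      rw [e5]
      exact (Valuation.map_sub _ _ _).trans_lt (max_lt hsmall h3)
    · rintro ⟨h3, h4⟩
      rw [e]
      refine (Valuation.map_add _ _ _).trans_lt (max_lt ?_ hsmall)
      rw [Valuation.map_neg]
      refine (Valuation.map_add _ _ _).trans_lt (max_lt ((hlt 𝔮 hOq _).2 h3) ?_)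
      rw [map_mul, hθq, mul_one]
      exact (hlt 𝔮 hOq _).2 h4
  constructor
  · rintro ⟨r0, r1, hr⟩
    refine ⟨ι r0 + ι r1 * θ, ?_⟩
    rw [hκθ]
    exact (hred r0 r1).2 hr
  · rintro ⟨s1, hs1⟩
    rw [hκθ] at hs1
    have hs1v : 𝔮.valuation L s1 ≤ 1 := by
      have h3 : 𝔮.valuation L (s1 ^ 2) ≤ 1 := by
        have e : s1 ^ 2 = κ * θ - (κ * θ - s1 ^ 2) := by ring
        rw [e]
        exact (Valuation.map_sub _ _ _).trans (max_le hκθ.le hs1.le)
      rw [map_pow] at h3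
      exact (pow_le_one_iff two_ne_zero).1 h3
    obtain ⟨t, ht⟩ := 𝔮.exists_valuation_sub_lt_of_integer hs1v 1
    obtain ⟨p, hp⟩ := (hINT (algebraMap O L t)).1 (IsIntegralClosure.isIntegral_iff.2 ⟨t, rfl⟩)
    have hp' : algebraMap O L t = ι (p 0) + ι (p 1) * θ + ι (p 2) * θ ^ 2 := hp
    have ht' : 𝔮.valuation L (algebraMap O L t - s1) < 1 := by simpa using ht
    refine ⟨p 0 - a * p 2, p 1, (hred _ _).1 ?_⟩
    set z := ι (p 0 - a * p 2) + ι (p 1) * θ with hz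
    have hzs : 𝔮.valuation L (z - s1) < 1 := by
      have e : z - s1 = (algebraMap O L t - s1) - ι (p 2) * (θ ^ 2 + ι a) := by
        rw [hz, hp', hι, map_sub, map_mul]; ring
      rw [e]
      refine (Valuation.map_sub _ _ _).trans_lt (max_lt ht' ?_)
      rw [map_mul]
      exact (mul_le_of_le_one_left' (hv1 _ _)).trans_lt (F3.trans_lt hQ1)
    have hzv : 𝔮.valuation L (z + s1) ≤ 1 := by
      have e : z + s1 = (z - s1) + 2 * s1 := by ring
      have h2v : 𝔮.valuation L (2 : L) ≤ 1 := by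
        have := hv1 𝔮 2
        rwa [hι, map_ofNat] at this
      rw [e]
      refine (Valuation.map_add _ _ _).trans (max_le hzs.le ?_)
      rw [map_mul]
      exact mul_le_one' h2v hs1v
    have e : κ * θ - z ^ 2 = (κ * θ - s1 ^ 2) - (z - s1) * (z + s1) := by ring
    rw [e]
    refine (Valuation.map_sub _ _ _).trans_lt (max_lt hs1 ?_)
    rw [map_mul]
    exact mul_lt_one_of_lt_of_le hzs hzv

end Pool.Agent.N966.PQ

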