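import Pool.Agent.N922.PQ.Lat

/-!
Project PQ (helper922), part RAM (helper966), after Pool/Agent/N765/PP (helper765): general lemmas
on the primes over a prime number, weak approximation, integrality away from the other primes,
`p`-adic numbers, coordinates, ternary forms.
-/

set_option autoImplicit false
set_option linter.all false

open Polynomial IsDedekindDomain Matrix
open scoped Classical

namespace Pool.Agent.N966.PQ

open Pool.Agent.N874.PP (Ev Sq1 U0)
open Pool.Agent.N922.PQ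

/-! ### Weak approximation -/

section WA

variable {O L : Type} [CommRing O] [IsDedekindDomain O] [Field L] [Algebra O L] [IsFractionRing O L]

theorem weak (T : Finset (HeightOneSpectrum O)) (y : HeightOneSpectrum O → L)
    (hy : ∀ v ∈ T, y v ≠ 0) : ∃ g : L, g ≠ 0 ∧ ∀ v ∈ T, v.valuation L g = v.valuation L (y v) := by
  rcases T.eq_empty_or_nonempty with rfl | hT
  · exact ⟨1, one_ne_zero, by simp⟩
  obtain ⟨d, hd⟩ := IsLocalization.exist_integer_multiples (nonZeroDivisors O) T y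
  have hd0 : algebraMap O L d ≠ 0 := IsLocalization.to_map_ne_zero_of_mem_nonZeroDivisors L le_rfl d.2
  choose z hz using hd
  have hz' : ∀ v : T, algebraMap O L (z v v.2) = algebraMap O L d * y v := fun v => by
    rw [hz v v.2, ← Algebra.smul_def]
  have hz0 : ∀ v : T, z v v.2 ≠ 0 := fun v h => by
    have := hz' v
    rw [h, map_zero] at this
    rcases mul_eq_zero.1 this.symm with h1 | h1
    · exact hd0 h1
    · exact hy v v.2 h1
  have hn : ∀ v : HeightOneSpectrum O, ∃ n : ℕ, ∀ hv : v ∈ T, WithZero.exp (-(n : ℤ)) <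
      v.intValuation (z v hv) := by
    intro v
    by_cases hv : v ∈ T
    · obtain ⟨n, hn⟩ := WithZero.exists_exp_neg_natCast_lt
        (v.intValuation_ne_zero (z v hv) (hz0 ⟨v, hv⟩))
      exact ⟨n, fun _ => hn⟩
    · exact ⟨0, fun h => absurd h hv⟩
  choose n hn using hn
  obtain ⟨w, hw⟩ := IsDedekindDomain.exists_forall_sub_mem_ideal (s := T)
    (fun v : HeightOneSpectrum O => v.asIdeal) n (fun v _ => v.prime)
    (fun v _ v' _ h => fun h' => h (HeightOneSpectrum.ext h')) (fun v => z v v.2)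
  have hval : ∀ v (hv : v ∈ T), v.intValuation w = v.intValuation (z v hv) := by
    intro v hv
    have h1 := (v.intValuation_le_pow_iff_mem _ _).2 (hw v hv)
    have h2 := h1.trans_lt (hn v hv)
    exact Valuation.map_eq_of_sub_lt _ h2
  have hgv : ∀ v ∈ T, v.valuation L (algebraMap O L w / algebraMap O L d) = v.valuation L (y v) := by
    intro v hv
    have e1 : v.valuation L (algebraMap O L w) = v.valuation L (algebraMap O L d * y v) := by
      rw [← hz' ⟨v, hv⟩, v.valuation_of_algebraMap, v.valuation_of_algebraMap]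
      exact hval v hv
    rw [map_div₀, e1, map_mul, mul_div_cancel_left₀]
    exact (Valuation.ne_zero_iff _).2 hd0
  refine ⟨algebraMap O L w / algebraMap O L d, ?_, hgv⟩
  intro h0
  obtain ⟨v, hv⟩ := hT
  have := hgv v hv
  rw [h0, map_zero] at this
  exact (Valuation.ne_zero_iff _).2 (hy v hv) this.symm

end WA

section primes

variable {L O : Type} [Field L] [CharZero L] [CommRing O]
  [IsDedekindDomain O] [Algebra O L] [IsFractionRing O L] [IsIntegralClosure O ℤ L]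

theorem injO [CharZero L] : Function.Injective (Int.castRingHom O) := by
  intro x y h
  have h1 := congrArg (algebraMap O L) h
  rw [eq_intCast, eq_intCast, map_intCast, map_intCast] at h1
  exact_mod_cast h1

omit [CharZero L] [IsIntegralClosure O ℤ L] in
theorem val_lt {P : ℤ} (hP : Prime P) {𝔓 : HeightOneSpectrum O} (h : Ov P 𝔓) (f : ℤ) :
    𝔓.valuation L (f : L) < 1 ↔ P ∣ f := by
  rw [← map_intCast (algebraMap O L), HeightOneSpectrum.valuation_lt_one_iff_mem]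
  constructor
  · intro hf
    by_contra hn
    obtain ⟨u, w, huw⟩ := (hP.irreducible.coprime_iff_not_dvd.2 hn)
    apply 𝔓.isPrime.ne_top
    rw [Ideal.eq_top_iff_one]
    have e : (1 : O) = (u : O) * (P : O) + (w : O) * (f : O) := by
      exact_mod_cast congrArg (Int.cast : ℤ → O) huw.symm
    rw [e]
    exact Ideal.add_mem _ (Ideal.mul_mem_left _ _ h) (Ideal.mul_mem_left _ _ hf)
  · rintro ⟨g, rfl⟩
    rw [Int.cast_mul]
    exact Ideal.mul_mem_right _ _ h

omit [CharZero L] [IsIntegralClosure O ℤ L] in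
theorem val_le (𝔓 : HeightOneSpectrum O) (f : ℤ) :
    𝔓.valuation L (f : L) ≤ 1 := by
  rw [← map_intCast (algebraMap O L)]
  exact 𝔓.valuation_le_one _

omit [CharZero L] [IsIntegralClosure O ℤ L] in
theorem val_eq {P : ℤ} (hP : Prime P) {𝔓 : HeightOneSpectrum O} (h : Ov P 𝔓) {f : ℤ}
    (hf : ¬ P ∣ f) : 𝔓.valuation L (f : L) = 1 :=
  le_antisymm (val_le 𝔓 f) (not_lt.1 fun h1 => hf ((val_lt hP h f).1 h1))

theorem loc_int {P : ℤ} (hP : Prime P) (x : L)
    (hx : ∀ 𝔓 : HeightOneSpectrum O, Ov P 𝔓 → 𝔓.valuation L x ≤ 1) :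
    ∃ s : ℤ, ¬ P ∣ s ∧ IsIntegral ℤ ((s : L) * x) := by
  let J : Ideal O :=
    { carrier := {d | ∃ n : O, algebraMap O L d * x = algebraMap O L n}
      add_mem' := by
        rintro d e ⟨n, hn⟩ ⟨m, hm⟩
        exact ⟨n + m, by rw [map_add, map_add, add_mul, hn, hm]⟩
      zero_mem' := ⟨0, by rw [map_zero, zero_mul]⟩
      smul_mem' := by
        rintro c d ⟨n, hn⟩
        exact ⟨c * n, by rw [smul_eq_mul, map_mul, map_mul, mul_assoc, hn]⟩ }
  have hprime : (Ideal.span {P} : Ideal ℤ).IsPrime :=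
    (Ideal.span_singleton_prime hP.ne_zero).2 hP
  haveI : Algebra.IsIntegral ℤ O := IsIntegralClosure.isIntegral_algebra ℤ L
  by_cases hJ : J.comap (algebraMap ℤ O) ≤ Ideal.span {P}
  · exfalso
    obtain ⟨𝔔, hJQ, hQp, hQc⟩ := Ideal.exists_ideal_over_prime_of_isIntegral (Ideal.span {P}) J hJ
    have hPQ : (P : O) ∈ 𝔔 := by
      have : P ∈ 𝔔.comap (algebraMap ℤ O) := by
        rw [hQc]; exact Ideal.mem_span_singleton_self P
      exact this
    have hQ0 : 𝔔 ≠ ⊥ := by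
      intro h
      rw [h, Ideal.mem_bot] at hPQ
      exact hP.ne_zero (injO (L := L) (O := O) (by rw [map_zero]; exact hPQ))
    let 𝔓 : HeightOneSpectrum O := ⟨𝔔, hQp, hQ0⟩
    obtain ⟨n, d, hd⟩ := 𝔓.exists_primeCompl_mul_eq_of_integer x (hx 𝔓 hPQ)
    exact d.2 (hJQ ⟨n, by rw [mul_comm]; exact hd⟩)
  · obtain ⟨s, hs, hsP⟩ := Set.not_subset.1 hJ
    refine ⟨s, fun h => hsP (Ideal.mem_span_singleton.2 h), ?_⟩
    obtain ⟨n, hn⟩ := hs
    have hn' : (s : L) * x = algebraMap O L n := by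
      rw [← hn, ← map_intCast (algebraMap O L)]
      rfl
    rw [hn']
    exact (IsIntegralClosure.isIntegral_iff (A := O)).2 ⟨n, rfl⟩

end primes

/-! ### `p`-adic numbers -/

section comp

variable {p : ℕ} [Fact p.Prime]

theorem n_le (z : ℤ) : ‖(z : ℚ_[p])‖ ≤ 1 := Padic.norm_int_le_one z

theorem n_lt (z : ℤ) : ‖(z : ℚ_[p])‖ < 1 ↔ (p : ℤ) ∣ z := Padic.norm_intCast_lt_one_iff

theorem n_eq {z : ℤ} (hz : ¬ (p : ℤ) ∣ z) : ‖(z : ℚ_[p])‖ = 1 :=
  le_antisymm (n_le z) (not_lt.1 fun h => hz ((n_lt z).1 h))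

theorem n_mul {x z : ℚ_[p]} (hx : ‖x‖ ≤ 1) (hz : ‖z‖ ≤ 1) : ‖x * z‖ ≤ 1 := by
  rw [norm_mul]; exact mul_le_one₀ hx (norm_nonneg _) hz

theorem n_add {x z : ℚ_[p]} (hx : ‖x‖ ≤ 1) (hz : ‖z‖ ≤ 1) : ‖x + z‖ ≤ 1 :=
  (Padic.nonarchimedean _ _).trans (max_le hx hz)

theorem s_mul {x z : ℚ_[p]} (hx : ‖x‖ < 1) (hz : ‖z‖ ≤ 1) : ‖x * z‖ < 1 := by
  rw [norm_mul]
  exact mul_lt_one_of_nonneg_of_lt_one_left (norm_nonneg _) hx hz

theorem s_add {x z : ℚ_[p]} (hx : ‖x‖ < 1) (hz : ‖z‖ < 1) : ‖x + z‖ < 1 :=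
  (Padic.nonarchimedean _ _).trans_lt (max_lt hx hz)

theorem approx (y : ℚ_[p]) (hy : ‖y‖ ≤ 1) : ∃ z : ℤ, ‖y - (z : ℚ_[p])‖ < 1 := by
  obtain ⟨n, -, hn⟩ := PadicInt.exists_mem_range (⟨y, hy⟩ : ℤ_[p])
  refine ⟨n, ?_⟩
  rw [PadicInt.maximalIdeal_eq_span_p, Ideal.mem_span_singleton, ← PadicInt.norm_lt_one_iff_dvd] at hn
  have : ‖y - (n : ℚ_[p])‖ < 1 := by simpa [PadicInt.norm_def] using hn
  rwa [Int.cast_natCast]

/-- A zero of a quadratic polynomial. -/
theorem lift_quad (h2 : p ≠ 2) (A B c : ℤ) (hB : ¬ (p : ℤ) ∣ B) (hc : (p : ℤ) ∣ c) :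
    ∃ t : ℚ_[p], ‖t‖ < 1 ∧ (A : ℚ_[p]) * t ^ 2 + 2 * B * t + c = 0 := by
  obtain ⟨B2, hB2⟩ : ∃ B2 : ℤ, B2 = 2 * B := ⟨_, rfl⟩
  set F : ℤ[X] := C A * X ^ 2 + C B2 * X + C c with hF
  have hd : F.derivative = C A * (2 * X) + C B2 := by
    rw [hF]
    simp only [derivative_add, derivative_mul, derivative_C, derivative_X_pow, derivative_X]
    simp
  have h0 : F.aeval (0 : ℤ_[p]) = (c : ℤ_[p]) := by
    rw [hF]; simp
  have h1 : F.derivative.aeval (0 : ℤ_[p]) = ((2 * B : ℤ) : ℤ_[p]) := by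
    rw [hd, ← hB2]; simp
  have h2B : ¬ (p : ℤ) ∣ 2 * B := by
    intro h
    have hp : Prime (p : ℤ) := Nat.prime_iff_prime_int.1 (Fact.out : p.Prime)
    rcases hp.dvd_or_dvd h with h3 | h3
    · apply h2
      have h4 : p ∣ 2 := by exact_mod_cast h3
      exact (Nat.prime_dvd_prime_iff_eq Fact.out Nat.prime_two).1 h4
    · exact hB h3
  have hn0 : ‖((c : ℤ) : ℤ_[p])‖ < 1 := by
    rw [PadicInt.norm_def, PadicInt.coe_intCast]; exact (n_lt c).2 hc
  have hn1 : ‖((2 * B : ℤ) : ℤ_[p])‖ = 1 := by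
    rw [PadicInt.norm_def, PadicInt.coe_intCast]; exact n_eq h2B
  obtain ⟨z, hz, hz1, -⟩ := hensels_lemma (p := p) (F := F) (a := 0) (by
    rw [h0, h1, hn1, one_pow]; exact hn0)
  rw [h1, hn1, sub_zero] at hz1
  refine ⟨z, by rw [← PadicInt.norm_def]; exact hz1, ?_⟩
  have h3 : (A : ℤ_[p]) * z ^ 2 + B2 * z + c = 0 := by
    rw [hF] at hz
    simpa using hz
  have h4 := congrArg (fun x : ℤ_[p] => (x : ℚ_[p])) h3
  have h5 : (B2 : ℚ_[p]) = 2 * B := by rw [hB2]; push_cast; ring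
  rw [← h5]
  simpa using h4

/-- Scaling to a primitive vector. -/
theorem scale {n : ℕ} (y : Fin n → ℚ_[p]) (hy : y ≠ 0) :
    ∃ c : ℚ_[p], c ≠ 0 ∧ (∀ i, ‖c * y i‖ ≤ 1) ∧ ∃ i, ‖c * y i‖ = 1 := by
  obtain ⟨i0, hi0⟩ := Function.ne_iff.1 hy
  haveI : Nonempty (Fin n) := ⟨i0⟩
  obtain ⟨i, hi⟩ := Finite.exists_max fun i => ‖y i‖
  have hi1 : y i ≠ 0 := by
    intro h
    have := hi i0
    rw [h, norm_zero] at this
    exact hi0 (norm_le_zero_iff.1 this)
  have h0 : 0 < ‖y i‖ := norm_pos_iff.2 hi1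
  refine ⟨(y i)⁻¹, inv_ne_zero hi1, fun j => ?_, i, ?_⟩
  · rw [norm_mul, norm_inv, inv_mul_le_iff₀ h0, mul_one]
    exact hi j
  · rw [inv_mul_cancel₀ hi1, norm_one]

theorem v_uni (y : ℚ_[p]) (hy : ‖y‖ < 1) :
    ∃ z : ℚ_[p], ‖z‖ ≤ 1 ∧ y = (p : ℚ_[p]) * z := by
  obtain ⟨x, hx⟩ : ∃ x : ℤ_[p], (x : ℚ_[p]) = y := ⟨⟨y, hy.le⟩, rfl⟩
  have h1 : ‖x‖ < 1 := by rw [PadicInt.norm_def, hx]; exact hy
  rw [PadicInt.norm_lt_one_iff_dvd] at h1
  obtain ⟨z, hz⟩ := h1
  refine ⟨z, z.2, ?_⟩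
  have h4 := congrArg (fun x : ℤ_[p] => (x : ℚ_[p])) hz
  rw [← hx]
  simpa using h4

end comp

/-! ### Coordinates -/

section coords

variable {L : Type} [Field L] [CharZero L] {a b : ℤ} {θ : L}

theorem co_sum (h : IsCub a b θ) (c : Fin 3 → ℚ) (i : Fin 3) :
    h.co i ((c 0 : L) + (c 1 : L) * θ + (c 2 : L) * θ ^ 2) = c i := by
  have e : (c 0 : L) + (c 1 : L) * θ + (c 2 : L) * θ ^ 2 = ∑ j, c j • h.basis j := by
    rw [Fin.sum_univ_three]
    simp only [h.basis_apply, Pool.Agent.N922.PQ.vec, Rat.smul_def]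
    simp
  rw [e, IsCub.co, Module.Basis.coord_apply, Module.Basis.repr_sum_self]

theorem co_crd (h : IsCub a b θ) {u : Fin 3 → ℤ} {x : L} (hx : Crd θ u x) (i : Fin 3) :
    h.co i x = (u i : ℚ) := by
  have hx' : x = (u 0 : L) + (u 1 : L) * θ + (u 2 : L) * θ ^ 2 := hx
  have := co_sum h (fun j => (u j : ℚ)) i
  rw [← this, hx', Rat.cast_intCast, Rat.cast_intCast, Rat.cast_intCast]

/-- The coordinates of a product. -/
def mulc {R : Type} [CommRing R] (a b : R) (u v : Fin 3 → R) : Fin 3 → R :=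
  ![u 0 * v 0 - b * (u 1 * v 2 + u 2 * v 1),
    u 0 * v 1 + u 1 * v 0 - a * (u 1 * v 2 + u 2 * v 1) - b * (u 2 * v 2),
    u 0 * v 2 + u 1 * v 1 + u 2 * v 0 - a * (u 2 * v 2)]

theorem crd_mul (h : IsCub a b θ) {u w : Fin 3 → ℤ} {x y : L} (hx : Crd θ u x)
    (hy : Crd θ w y) : Crd θ (mulc a b u w) (x * y) := by
  have hx' : x = (u 0 : L) + (u 1 : L) * θ + (u 2 : L) * θ ^ 2 := hx
  have hy' : y = (w 0 : L) + (w 1 : L) * θ + (w 2 : L) * θ ^ 2 := hy
  have hr := h.root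
  change x * y = _
  simp only [mulc, Matrix.cons_val_zero, Matrix.cons_val_one, Matrix.cons_val_two, Matrix.head_cons,
    Matrix.tail_cons, Int.cast_sub, Int.cast_add, Int.cast_mul, Matrix.cons_val]
  rw [hx', hy']
  linear_combination ((u 1 : L) * (w 2 : L) + (u 2 : L) * (w 1 : L) + (u 2 : L) * (w 2 : L) * θ) * hr

theorem li_pow (h : IsCub a b θ) : LinearIndependent ℚ fun i : Fin 3 => θ ^ (i : ℕ) := by
  have h1 := h.basis.linearIndependent
  have e : (fun i : Fin 3 => θ ^ (i : ℕ)) = h.basis := by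
    funext i
    rw [h.basis_apply]
    fin_cases i <;> simp [Pool.Agent.N922.PQ.vec]
  rw [e]
  exact h1

theorem li_mul {f : Fin 3 → L} (hf : LinearIndependent ℚ f) {g : L} (hg : g ≠ 0) :
    LinearIndependent ℚ fun i => g * f i := by
  rw [Fintype.linearIndependent_iff] at hf ⊢
  intro c hc
  apply hf c
  apply mul_left_cancel₀ hg
  rw [mul_zero, ← hc, Finset.mul_sum]
  refine Finset.sum_congr rfl fun i _ => ?_
  rw [mul_smul_comm]

/-! ### Change of basis -/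

/-- Isotropy with respect to a family. -/
def IsoF (h : IsCub a b θ) (p : ℕ) [Fact p.Prime] (α : L) (f : Fin 3 → L) : Prop :=
  ∃ y : Fin 3 → ℚ_[p], y ≠ 0 ∧
    ∑ i : Fin 3, ∑ j : Fin 3, ((h.co 2 (f i * f j / α) : ℚ) : ℚ_[p]) * y i * y j = 0

theorem iso_change (h : IsCub a b θ) (p : ℕ) [Fact p.Prime] (α : L) {f g : Fin 3 → L}
    (hf : LinearIndependent ℚ f) (hg : LinearIndependent ℚ g) (H : IsoF h p α f) :
    IsoF h p α g := by
  have hrank : Fintype.card (Fin 3) = Module.finrank ℚ L := by rw [h.rank]; rfl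
  let bf := basisOfLinearIndependentOfCardEqFinrank hf hrank
  let bg := basisOfLinearIndependentOfCardEqFinrank hg hrank
  have hbf : ∀ i, bf i = f i := fun i => by
    simp only [bf, coe_basisOfLinearIndependentOfCardEqFinrank]
  have hbg : ∀ i, bg i = g i := fun i => by
    simp only [bg, coe_basisOfLinearIndependentOfCardEqFinrank]
  let M : Matrix (Fin 3) (Fin 3) ℚ := fun i j => bg.repr (f i) j
  let N : Matrix (Fin 3) (Fin 3) ℚ := fun i j => bf.repr (g i) j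
  have hM : ∀ i, f i = ∑ j, M i j • g j := fun i => by
    have := bg.sum_repr (f i)
    simp only [hbg] at this
    exact this.symm
  have hN : ∀ i, g i = ∑ j, N i j • f j := fun i => by
    have := bf.sum_repr (g i)
    simp only [hbf] at this
    exact this.symm
  have hMN : M * N = 1 := by
    ext i l
    have e1 : f i = ∑ l, (M * N) i l • f l := by
      rw [hM i]
      simp_rw [Matrix.mul_apply, Finset.sum_smul]
      rw [Finset.sum_comm]
      refine Finset.sum_congr rfl fun j _ => ?_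
      conv_lhs => rw [hN j]
      rw [Finset.smul_sum]
      refine Finset.sum_congr rfl fun l _ => ?_
      rw [smul_smul]
    have e2 : bf.repr (f i) l = (M * N) i l := by
      conv_lhs => rw [e1]
      simp_rw [← hbf]
      rw [bf.repr_sum_self]
    rw [← e2, ← hbf i, bf.repr_self, Matrix.one_apply, Finsupp.single_apply]
  obtain ⟨y, hy, hy0⟩ := H
  let φ : ℚ →+* ℚ_[p] := Rat.castHom ℚ_[p]
  let M' := M.map φ
  let N' := N.map φ
  have hMN' : M' * N' = 1 := by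
    have := congrArg (fun A : Matrix (Fin 3) (Fin 3) ℚ => A.map φ) hMN
    simp only [Matrix.map_mul] at this
    rw [this]
    exact Matrix.map_one φ (map_zero φ) (map_one φ)
  refine ⟨y ᵥ* M', ?_, ?_⟩
  · intro h0
    apply hy
    have : (y ᵥ* M') ᵥ* N' = y := by rw [Matrix.vecMul_vecMul, hMN', Matrix.vecMul_one]
    rw [← this, h0, Matrix.zero_vecMul]
  · have hG : ∀ i j, h.co 2 (f i * f j / α) =
        ∑ k, ∑ l, M i k * M j l * h.co 2 (g k * g l / α) := by
      intro i j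
      have e : f i * f j / α = ∑ k, ∑ l, (M i k * M j l) • (g k * g l / α) := by
        conv_lhs => rw [hM i, hM j]
        rw [Finset.sum_mul_sum, Finset.sum_div]
        refine Finset.sum_congr rfl fun k _ => ?_
        rw [Finset.sum_div]
        refine Finset.sum_congr rfl fun l _ => ?_
        rw [smul_mul_smul_comm, smul_div_assoc]
      rw [e, map_sum]
      refine Finset.sum_congr rfl fun k _ => ?_
      rw [map_sum]
      refine Finset.sum_congr rfl fun l _ => ?_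
      rw [map_smul, smul_eq_mul]
    have hx : ∀ j, (y ᵥ* M') j = ∑ i, y i * φ (M i j) := fun j => rfl
    change ∑ i : Fin 3, ∑ j : Fin 3, φ (h.co 2 (f i * f j / α)) * y i * y j = 0 at hy0
    change ∑ i : Fin 3, ∑ j : Fin 3, φ (h.co 2 (g i * g j / α)) * (y ᵥ* M') i * (y ᵥ* M') j = 0
    rw [← hy0]
    simp only [hx, hG, map_sum, map_mul]
    simp only [Fin.sum_univ_three]
    ring

/-- The ternary form with matrix `G` has a zero over the completion. -/
def Iso3 (p : ℕ) [Fact p.Prime] (G : Fin 3 → Fin 3 → ℤ) : Prop :=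
  ∃ y : Fin 3 → ℚ_[p], y ≠ 0 ∧ ∑ i : Fin 3, ∑ j : Fin 3, ((G i j : ℤ) : ℚ_[p]) * y i * y j = 0

theorem isoF_iff (h : IsCub a b θ) (p : ℕ) [Fact p.Prime] (α : L) (f : Fin 3 → L)
    (G : Fin 3 → Fin 3 → ℤ) (c : ℚ) (hc : c ≠ 0)
    (hG : ∀ i j, h.co 2 (f i * f j / α) * c = (G i j : ℚ)) :
    IsoF h p α f ↔ Iso3 p G := by
  have hc' : (c : ℚ_[p]) ≠ 0 := by exact_mod_cast hc
  have e : ∀ y : Fin 3 → ℚ_[p], ∑ i : Fin 3, ∑ j : Fin 3, ((G i j : ℤ) : ℚ_[p]) * y i * y j =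
      (c : ℚ_[p]) * ∑ i : Fin 3, ∑ j : Fin 3, ((h.co 2 (f i * f j / α) : ℚ) : ℚ_[p]) * y i * y j := by
    intro y
    rw [Finset.mul_sum]
    refine Finset.sum_congr rfl fun i _ => ?_
    rw [Finset.mul_sum]
    refine Finset.sum_congr rfl fun j _ => ?_
    have h1 : ((G i j : ℤ) : ℚ_[p]) = ((h.co 2 (f i * f j / α) : ℚ) : ℚ_[p]) * (c : ℚ_[p]) := by
      rw [← Rat.cast_mul, hG, Rat.cast_intCast]
    rw [h1]
    ring
  constructor
  · rintro ⟨y, hy, hy0⟩
    exact ⟨y, hy, by rw [e, hy0, mul_zero]⟩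
  · rintro ⟨y, hy, hy0⟩
    refine ⟨y, hy, ?_⟩
    rw [e] at hy0
    exact (mul_eq_zero.1 hy0).resolve_left hc'

end coords

end Pool.Agent.N966.PQ
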