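import Pool.Agent.N966.PQ.Base

/-!
Project PQ (helper922), part RAM (helper966), after Pool/Agent/N765/PP/RamF.lean (helper765).
-/

set_option autoImplicit false
set_option linter.all false

open Polynomial IsDedekindDomain Matrix
open scoped Classical

namespace Pool.Agent.N966.PQ

open Pool.Agent.N874.PP (Ev Sq1 U0)
open Pool.Agent.N922.PQ

section fin

variable {F : Type} [Field F] [Finite F]

theorem sq_or (h2 : (2 : F) ≠ 0) {x y : F} (hx : ¬ IsSquare x) (hy : ¬ IsSquare y) :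
    IsSquare (x * y) := by
  letI : Fintype F := Fintype.ofFinite F
  have hc : ringChar F ≠ 2 := by
    intro h
    apply h2
    have : ((2 : ℕ) : F) = 0 := by rw [ringChar.spec, h]
    exact_mod_cast this
  have hx0 : x ≠ 0 := by rintro rfl; exact hx ⟨0, by simp⟩
  have hy0 : y ≠ 0 := by rintro rfl; exact hy ⟨0, by simp⟩
  rw [← quadraticChar_one_iff_isSquare (mul_ne_zero hx0 hy0), map_mul,
    (quadraticChar_neg_one_iff_not_isSquare).2 hx, (quadraticChar_neg_one_iff_not_isSquare).2 hy]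
  norm_num

theorem sqF (h2 : (2 : F) ≠ 0) (a d1 d2 : F) (ha : ∀ z : F, z ^ 2 + a ≠ 0)
    (hd : ¬ (d1 = 0 ∧ d2 = 0)) :
    (∃ x2 x3 : F, ¬ (x2 = 0 ∧ x3 = 0) ∧
      -a * d2 * x2 ^ 2 - 2 * a * d1 * x2 * x3 + a ^ 2 * d2 * x3 ^ 2 = 0) ↔
    ∃ s0 s1 : F, s0 ^ 2 - a * s1 ^ 2 = -a * d1 ∧ 2 * s0 * s1 = -a * d2 := by
  have ha0 : a ≠ 0 := by
    intro h; apply ha 0; rw [h]; ring
  constructor
  · rintro ⟨x2, x3, hx, hE⟩
    have hE' : d2 * (x2 ^ 2 - a * x3 ^ 2) + 2 * d1 * x2 * x3 = 0 := by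
      have : -a * (d2 * (x2 ^ 2 - a * x3 ^ 2) + 2 * d1 * x2 * x3) = 0 := by
        rw [← hE]; ring
      exact (mul_eq_zero.1 this).resolve_left (neg_ne_zero.2 ha0)
    have hn : x2 ^ 2 + a * x3 ^ 2 ≠ 0 := by
      intro h0
      by_cases h3 : x3 = 0
      · rw [h3] at h0
        have : x2 ^ 2 = 0 := by linear_combination h0
        exact hx ⟨pow_eq_zero_iff two_ne_zero |>.1 this, h3⟩
      · apply ha (x2 / x3)
        field_simp
        linear_combination h0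
    set n := x2 ^ 2 + a * x3 ^ 2 with hn'
    set f := -a * (d1 * (x2 ^ 2 - a * x3 ^ 2) - 2 * a * d2 * x2 * x3) with hf
    have hA : f * (x2 ^ 2 - a * x3 ^ 2) = -a * d1 * n ^ 2 := by
      rw [hf, hn']
      linear_combination (2 * a ^ 2 * x2 * x3) * hE'
    have hB : -2 * f * x2 * x3 = -a * d2 * n ^ 2 := by
      rw [hf, hn']
      linear_combination (a * (x2 ^ 2 - a * x3 ^ 2)) * hE'
    have hsq : ∃ r, f = r ^ 2 ∨ -a * f = r ^ 2 := by
      by_cases h1 : IsSquare f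
      · obtain ⟨r, hr⟩ := h1
        exact ⟨r, Or.inl (by rw [hr]; ring)⟩
      · have h3 : ¬ IsSquare (-a) := by
          rintro ⟨r, hr⟩
          apply ha r
          linear_combination -hr
        obtain ⟨r, hr⟩ := sq_or h2 h3 h1
        exact ⟨r, Or.inr (by rw [hr]; ring)⟩
    obtain ⟨r, hr | hr⟩ := hsq
    · refine ⟨r * x2 / n, -r * x3 / n, ?_, ?_⟩
      · field_simp
        linear_combination hA - (x2 ^ 2 - a * x3 ^ 2) * hr
      · field_simp
        linear_combination hB + (2 * x2 * x3) * hr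
    · refine ⟨-r * x3 / n, -r * x2 / (a * n), ?_, ?_⟩
      · field_simp
        linear_combination a * hA + (x2 ^ 2 - a * x3 ^ 2) * hr
      · field_simp
        linear_combination a * hB - (2 * x2 * x3) * hr
  · rintro ⟨s0, s1, h1, h3⟩
    refine ⟨s0, -s1, ?_, ?_⟩
    · rintro ⟨h4, h5⟩
      have h5' : s1 = 0 := by simpa using h5
      rw [h4, h5'] at h1 h3
      apply hd
      constructor
      · have : a * d1 = 0 := by linear_combination h1
        exact (mul_eq_zero.1 this).resolve_left ha0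
      · have : a * d2 = 0 := by linear_combination h3
        exact (mul_eq_zero.1 this).resolve_left ha0
    · linear_combination (-a * d2) * h1 + (a * d1) * h3

end fin

section form

variable {p : ℕ} [Fact p.Prime]

theorem lift_form (h2 : p ≠ 2) (G : Fin 3 → Fin 3 → ℤ) (hG : ∀ i j, G i j = G j i) (q : Fin 3 → ℤ)
    (hp : ∃ j, ¬ (p : ℤ) ∣ q j) (hq : (p : ℤ) ∣ ∑ i, ∑ j, G i j * q i * q j) (i0 : Fin 3)
    (hi : ¬ (p : ℤ) ∣ ∑ j, G i0 j * q j) : Iso3 p G := by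
  obtain ⟨t, ht, htq⟩ := lift_quad h2 (G i0 i0) (∑ j, G i0 j * q j)
    (∑ i, ∑ j, G i j * q i * q j) hi hq
  refine ⟨fun i => (q i : ℚ_[p]) + if i = i0 then t else 0, ?_, ?_⟩
  · obtain ⟨j, hj⟩ := hp
    intro h0
    have h1 := congrFun h0 j
    have h2 : ‖(q j : ℚ_[p])‖ = 1 := n_eq hj
    have h3 : (q j : ℚ_[p]) = -(if j = i0 then t else 0) := by
      simp only [Pi.zero_apply] at h1
      linear_combination h1
    rw [h3, norm_neg] at h2
    split_ifs at h2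
    · exact ht.ne h2
    · rw [norm_zero] at h2; exact zero_ne_one h2
  · have h01 := hG 0 1
    have h02 := hG 0 2
    have h12 := hG 1 2
    simp only [Fin.sum_univ_three, Int.cast_add, Int.cast_mul] at htq ⊢
    fin_cases i0
    · simp only [Fin.zero_eta, Fin.isValue, if_true, one_ne_zero, if_false, add_zero,
        Fin.reduceEq, ← h01, ← h02, ← h12] at htq ⊢
      linear_combination htq
    · simp only [Fin.mk_one, Fin.isValue, if_true, one_ne_zero, if_false, add_zero,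
        Fin.reduceEq, zero_ne_one, ← h01, ← h02, ← h12] at htq ⊢
      linear_combination htq
    · simp only [Fin.reduceFinMk, Fin.isValue, if_true, one_ne_zero, if_false, add_zero,
        Fin.reduceEq, ← h01, ← h02, ← h12] at htq ⊢
      linear_combination htq

/-- The matrix of the form in the basis `θ ^ 2 + a`, `θ`, `θ ^ 2`. -/
def gm {R : Type} [CommRing R] (a b : R) (d : Fin 3 → R) : Fin 3 → Fin 3 → R :=
  ![![a * d 0 - b * d 1, -b * d 2, -b * d 1],
    ![-b * d 2, d 0 - a * d 2, -a * d 1 - b * d 2],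
    ![-b * d 1, -a * d 1 - b * d 2, -a * d 0 + a ^ 2 * d 2 - b * d 1]]

theorem iso_gm {Q : ℤ} (hQp : Q = (p : ℤ))
    (h2 : p ≠ 2) {a b : ℤ} (hb : Q ∣ b) (hns : ∀ z : ℤ, ¬ Q ∣ z ^ 2 + a)
    {d : Fin 3 → ℤ} (hd0 : Q ∣ d 0) (hd : ¬ (Q ∣ d 1 ∧ Q ∣ d 2))
    (hu : ¬ Q ^ 2 ∣ a * d 0 - b * d 1) :
    Iso3 p (gm a b d) ↔ ∃ r0 r1 : ℤ, Q ∣ r0 ^ 2 - a * r1 ^ 2 + a * d 1 ∧
      Q ∣ 2 * r0 * r1 + a * d 2 := by
  set m : ℤ →+* ZMod p := Int.castRingHom (ZMod p) with hm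
  have hmz : ∀ f, m f = 0 ↔ Q ∣ f := fun f => by
    rw [hQp, hm, eq_intCast]
    exact ZMod.intCast_zmod_eq_zero_iff_dvd f p
  have hmsj : ∀ x : ZMod p, ∃ z : ℤ, m z = x := fun x => ZMod.intCast_surjective x
  have h2' : (2 : ZMod p) ≠ 0 := by
    intro h
    have e : m 2 = 0 := by
      rw [← h]
      exact map_ofNat m 2
    rw [hmz, hQp] at e
    have h4 : p ∣ 2 := by exact_mod_cast e
    exact h2 ((Nat.prime_dvd_prime_iff_eq Fact.out Nat.prime_two).1 h4)
  have hns' : ∀ z : ZMod p, z ^ 2 + m a ≠ 0 := by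
    intro z hz
    obtain ⟨w, rfl⟩ := hmsj z
    apply hns w
    rw [← hmz, map_add, map_pow]
    exact hz
  have hma : m a ≠ 0 := by
    intro h; apply hns' 0; rw [h]; ring
  have hmb : m b = 0 := (hmz b).2 hb
  have hmd0 : m (d 0) = 0 := (hmz _).2 hd0
  have hd' : ¬ (m (d 1) = 0 ∧ m (d 2) = 0) := by
    rw [hmz, hmz]; exact hd
  have key : (∃ r0 r1 : ℤ, Q ∣ r0 ^ 2 - a * r1 ^ 2 + a * d 1 ∧ Q ∣ 2 * r0 * r1 + a * d 2) ↔
      ∃ s0 s1 : ZMod p, s0 ^ 2 - m a * s1 ^ 2 = -m a * m (d 1) ∧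
        2 * s0 * s1 = -m a * m (d 2) := by
    constructor
    · rintro ⟨r0, r1, h1, h3⟩
      refine ⟨m r0, m r1, ?_, ?_⟩
      · rw [← hmz] at h1
        simp only [map_add, map_sub, map_mul, map_pow] at h1
        linear_combination h1
      · rw [← hmz] at h3
        simp only [map_add, map_sub, map_mul, map_pow, map_ofNat] at h3
        linear_combination h3
    · rintro ⟨s0, s1, h1, h3⟩
      obtain ⟨r0, rfl⟩ := hmsj s0
      obtain ⟨r1, rfl⟩ := hmsj s1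
      refine ⟨r0, r1, ?_, ?_⟩
      · rw [← hmz]
        simp only [map_add, map_sub, map_mul, map_pow]
        linear_combination h1
      · rw [← hmz]
        simp only [map_add, map_sub, map_mul, map_pow, map_ofNat]
        linear_combination h3
  rw [key, ← sqF h2' (m a) (m (d 1)) (m (d 2)) hns' hd']
  constructor
  · rintro ⟨y0, hy0, hy0e⟩
    obtain ⟨c, hc, hc1, i0, hi0⟩ := scale y0 hy0
    set φ : ℤ →+* ℚ_[p] := Int.castRingHom ℚ_[p] with hφ
    have hφ' : ∀ f : ℤ, φ f = (f : ℚ_[p]) := fun _ => rfl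
    have v_le : ∀ f : ℤ, ‖φ f‖ ≤ 1 := fun f => n_le f
    have v_lt : ∀ f : ℤ, ‖φ f‖ < 1 ↔ Q ∣ f := fun f => by rw [hQp]; exact n_lt f
    have v_eq : ∀ f : ℤ, ¬ Q ∣ f → ‖φ f‖ = 1 := fun f hf => n_eq (by rw [← hQp]; exact hf)
    set y : Fin 3 → ℚ_[p] := fun i => c * y0 i with hy
    have hE : φ (a * d 0 - b * d 1) * y 0 ^ 2 + 2 * φ (-b * d 2) * y 0 * y 1 +
        2 * φ (-b * d 1) * y 0 * y 2 + (φ (d 0 - a * d 2) * y 1 ^ 2 +
        2 * φ (-a * d 1 - b * d 2) * y 1 * y 2 +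
        φ (-a * d 0 + a ^ 2 * d 2 - b * d 1) * y 2 ^ 2) = 0 := by
      simp only [← hφ', gm, Fin.sum_univ_three, Matrix.cons_val_zero, Matrix.cons_val_one,
        Matrix.cons_val] at hy0e
      simp only [hy]
      linear_combination c ^ 2 * hy0e
    obtain ⟨b', rfl⟩ := hb
    obtain ⟨d', hd'e⟩ := hd0
    -- approximations
    choose q hp using fun i => approx (y i) (hc1 i)
    have hpv : ∀ i, ‖φ (q i)‖ ≤ 1 := fun i => v_le _
    have hyv : ∀ i, ‖y i‖ ≤ 1 := hc1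
    have hQv : ‖φ Q‖ < 1 := (v_lt _).2 dvd_rfl
    -- the integers
    have hint : ∀ x z : ℚ_[p], ‖x‖ ≤ 1 → ‖z‖ ≤ 1 →
        ‖x * z‖ ≤ 1 := fun x z hx hz => n_mul hx hz
    have hinta : ∀ x z : ℚ_[p], ‖x‖ ≤ 1 → ‖z‖ ≤ 1 →
        ‖x + z‖ ≤ 1 := fun x z hx hz => n_add hx hz
    have hsm : ∀ x z : ℚ_[p], ‖x‖ < 1 → ‖z‖ ≤ 1 →
        ‖x * z‖ < 1 := fun x z hx hz => s_mul hx hz
    have hsma : ∀ x z : ℚ_[p], ‖x‖ < 1 → ‖z‖ < 1 →
        ‖x + z‖ < 1 := fun x z hx hz => s_add hx hz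
    have hf : ∀ f, ‖φ f‖ ≤ 1 := fun f => v_le f
    have hv2 : ‖(2 : ℚ_[p])‖ ≤ 1 := by
      have := v_le 2
      rwa [map_ofNat] at this
    have hnp : ¬ (Q ∣ q 1 ∧ Q ∣ q 2) := by
      rintro ⟨h1, h3⟩
      have hy1 : ‖y 1‖ < 1 := by
        have e : y 1 = (y 1 - φ (q 1)) + φ (q 1) := by ring
        rw [e]; exact hsma _ _ (hp 1) ((v_lt _).2 h1)
      have hy2 : ‖y 2‖ < 1 := by
        have e : y 2 = (y 2 - φ (q 2)) + φ (q 2) := by ring
        rw [e]; exact hsma _ _ (hp 2) ((v_lt _).2 h3)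
      have hy00 : ‖y 0‖ = 1 := by
        fin_cases i0
        · exact hi0
        · exact absurd hi0 hy1.ne
        · exact absurd hi0 hy2.ne
      obtain ⟨z1, hz1, hz1e⟩ := v_uni (y 1) hy1
      obtain ⟨z2, hz2, hz2e⟩ := v_uni (y 2) hy2
      have hφQ : (p : ℚ_[p]) = φ Q := by rw [hφ', hQp, Int.cast_natCast]
      rw [hφQ] at hz1e hz2e
      have hQ0 : φ Q ≠ 0 := by
        rw [← hφQ]
        exact_mod_cast (Fact.out : p.Prime).ne_zero
      have hE2 : φ (a * d' - b' * d 1) * y 0 ^ 2 = φ Q * (2 * φ (b' * d 2) * y 0 * z1 +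
        2 * φ (b' * d 1) * y 0 * z2 - (φ (d 0 - a * d 2) * z1 ^ 2 +
        2 * φ (-a * d 1 - (Q * b') * d 2) * z1 * z2 +
        φ (-a * d 0 + a ^ 2 * d 2 - (Q * b') * d 1) * z2 ^ 2)) := by
        apply mul_left_cancel₀ hQ0
        rw [hd'e, hz1e, hz2e] at hE
        rw [hd'e]
        simp only [map_add, map_sub, map_mul, map_neg, map_pow] at hE ⊢
        linear_combination hE
      have h5 : ‖φ (a * d' - b' * d 1)‖ = 1 := by
        refine v_eq _ fun h => hu ?_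
        rw [hd'e]
        obtain ⟨w, hw⟩ := h
        exact ⟨w, by linear_combination Q * hw⟩
      have h6 : ‖φ (a * d' - b' * d 1) * y 0 ^ 2‖ = 1 := by
        rw [norm_mul, norm_pow, h5, hy00]; simp
      rw [hE2] at h6
      refine (hsm _ _ hQv ?_).ne h6
      have i1 : ‖2 * φ (b' * d 2) * y 0 * z1‖ ≤ 1 :=
        hint _ _ (hint _ _ (hint _ _ hv2 (hf _)) (hyv 0)) hz1
      have i2 : ‖2 * φ (b' * d 1) * y 0 * z2‖ ≤ 1 :=
        hint _ _ (hint _ _ (hint _ _ hv2 (hf _)) (hyv 0)) hz2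
      have i3 : ‖φ (d 0 - a * d 2) * z1 ^ 2‖ ≤ 1 := by
        rw [pow_two]; exact hint _ _ (hf _) (hint _ _ hz1 hz1)
      have i4 : ‖2 * φ (-a * d 1 - (Q * b') * d 2) * z1 * z2‖ ≤ 1 :=
        hint _ _ (hint _ _ (hint _ _ hv2 (hf _)) hz1) hz2
      have i5 : ‖φ (-a * d 0 + a ^ 2 * d 2 - (Q * b') * d 1) * z2 ^ 2‖ ≤ 1 := by
        rw [pow_two z2]; exact hint _ _ (hf _) (hint _ _ hz2 hz2)
      rw [sub_eq_add_neg]
      refine hinta _ _ (hinta _ _ i1 i2) ?_
      rw [norm_neg]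
      exact hinta _ _ (hinta _ _ i3 i4) i5
    refine ⟨m (q 1), m (q 2), ?_, ?_⟩
    · rw [hmz, hmz]; exact hnp
    · have e : -m a * m (d 2) * m (q 1) ^ 2 - 2 * m a * m (d 1) * m (q 1) * m (q 2) +
          m a ^ 2 * m (d 2) * m (q 2) ^ 2 =
          m (-a * d 2 * q 1 ^ 2 - 2 * a * d 1 * q 1 * q 2 + a ^ 2 * d 2 * q 2 ^ 2) := by
        simp only [map_add, map_sub, map_mul, map_neg, map_pow, map_ofNat]
      rw [e, hmz, ← v_lt]
      change ‖φ _‖ < 1
      have h7 : φ (-a * d 2 * q 1 ^ 2 - 2 * a * d 1 * q 1 * q 2 + a ^ 2 * d 2 * q 2 ^ 2) =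
          -(φ Q * (φ (a * d' - b' * d 1) * y 0 ^ 2 - 2 * φ (b' * d 2) * y 0 * y 1 -
            2 * φ (b' * d 1) * y 0 * y 2 + φ d' * y 1 ^ 2 - 2 * φ (b' * d 2) * y 1 * y 2 -
            φ (a * d' + b' * d 1) * y 2 ^ 2)) +
          ((y 1 - φ (q 1)) * (φ (a * d 2) * (y 1 + φ (q 1)) + 2 * φ (a * d 1) * y 2) +
          (y 2 - φ (q 2)) * (2 * φ (a * d 1) * φ (q 1) - φ (a ^ 2 * d 2) * (y 2 + φ (q 2)))) := by
        rw [hd'e] at hE
        simp only [map_add, map_sub, map_mul, map_neg, map_pow, map_ofNat] at hE ⊢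
        linear_combination hE
      rw [h7]
      have hy2i : ∀ i, ‖y i ^ 2‖ ≤ 1 := fun i => by
        rw [pow_two]; exact hint _ _ (hyv i) (hyv i)
      have hneg : ∀ x : ℚ_[p], ‖x‖ ≤ 1 → ‖-x‖ ≤ 1 := fun x hx => by
        rw [norm_neg]; exact hx
      refine hsma _ _ ?_ (hsma _ _ (hsm _ _ (hp 1) ?_) (hsm _ _ (hp 2) ?_))
      · rw [norm_neg]
        refine hsm _ _ hQv ?_
        simp only [sub_eq_add_neg]
        refine hinta _ _ (hinta _ _ (hinta _ _ (hinta _ _ (hinta _ _ ?_ ?_) ?_) ?_) ?_) ?_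
        · exact hint _ _ (hf _) (hy2i 0)
        · exact hneg _ (hint _ _ (hint _ _ (hint _ _ hv2 (hf _)) (hyv 0)) (hyv 1))
        · exact hneg _ (hint _ _ (hint _ _ (hint _ _ hv2 (hf _)) (hyv 0)) (hyv 2))
        · exact hint _ _ (hf _) (hy2i 1)
        · exact hneg _ (hint _ _ (hint _ _ (hint _ _ hv2 (hf _)) (hyv 1)) (hyv 2))
        · exact hneg _ (hint _ _ (hf _) (hy2i 2))
      · exact hinta _ _ (hint _ _ (hf _) (hinta _ _ (hyv 1) (hpv 1)))
          (hint _ _ (hint _ _ hv2 (hf _)) (hyv 2))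
      · rw [sub_eq_add_neg]
        exact hinta _ _ (hint _ _ (hint _ _ hv2 (hf _)) (hpv 1))
          (hneg _ (hint _ _ (hf _) (hinta _ _ (hyv 2) (hpv 2))))
  · rintro ⟨x2, x3, hx, hxe⟩
    obtain ⟨p2, rfl⟩ := hmsj x2
    obtain ⟨p3, rfl⟩ := hmsj x3
    have hq : Q ∣ ∑ i, ∑ j, gm a b d i j * (![0, p2, p3] : Fin 3 → ℤ) i *
        (![0, p2, p3] : Fin 3 → ℤ) j := by
      rw [← hmz]
      simp only [gm, Fin.sum_univ_three, Matrix.cons_val_zero, Matrix.cons_val_one,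
        Matrix.cons_val, map_add, map_mul, map_sub, map_neg, map_pow, map_zero, hmb, hmd0]
      linear_combination hxe
    have hp : ∃ j, ¬ Q ∣ (![0, p2, p3] : Fin 3 → ℤ) j := by
      by_contra hcon
      push Not at hcon
      apply hx
      rw [hmz, hmz]
      exact ⟨by simpa using hcon 1, by simpa using hcon 2⟩
    have hsymm : ∀ i j, gm a b d i j = gm a b d j i := by
      intro i j
      fin_cases i <;> fin_cases j <;> simp [gm]
    by_cases h1 : Q ∣ ∑ j, gm a b d 1 j * (![0, p2, p3] : Fin 3 → ℤ) j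
    · by_cases h3 : Q ∣ ∑ j, gm a b d 2 j * (![0, p2, p3] : Fin 3 → ℤ) j
      · exfalso
        rw [← hmz] at h1 h3
        simp only [gm, Fin.sum_univ_three, Matrix.cons_val_zero, Matrix.cons_val_one,
          Matrix.cons_val, map_add, map_mul, map_sub, map_neg, map_pow, map_zero, hmb, hmd0]
          at h1 h3
        have hD : m (d 1) ^ 2 + m a * m (d 2) ^ 2 ≠ 0 := by
          intro h0
          by_cases h4 : m (d 2) = 0
          · rw [h4] at h0
            have : m (d 1) ^ 2 = 0 := by linear_combination h0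
            exact hd' ⟨pow_eq_zero_iff two_ne_zero |>.1 this, h4⟩
          · apply hns' (m (d 1) / m (d 2))
            field_simp
            linear_combination h0
        apply hx
        have ha2 : m a ^ 2 ≠ 0 := pow_ne_zero _ hma
        constructor
        · have : m a ^ 2 * ((m (d 1) ^ 2 + m a * m (d 2) ^ 2) * m p2) = 0 := by
            linear_combination (-(m a ^ 2 * m (d 2))) * h1 - (m a * m (d 1)) * h3
          exact (mul_eq_zero.1 ((mul_eq_zero.1 this).resolve_left ha2)).resolve_left hD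
        · have : m a * ((m (d 1) ^ 2 + m a * m (d 2) ^ 2) * m p3) = 0 := by
            linear_combination (-(m (d 1))) * h1 + (m (d 2)) * h3
          exact (mul_eq_zero.1 ((mul_eq_zero.1 this).resolve_left hma)).resolve_left hD
      · exact lift_form h2 (gm a b d) hsymm _ (by rw [← hQp]; exact hp) (by rw [← hQp]; exact hq) 2 (by rw [← hQp]; exact h3)
    · exact lift_form h2 (gm a b d) hsymm _ (by rw [← hQp]; exact hp) (by rw [← hQp]; exact hq) 1 (by rw [← hQp]; exact h1)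

end form

end Pool.Agent.N966.PQ
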